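import Mathlib
import Pool.Agent.H24.RCN.Targets

/-!
# Row UNR of rct_modules
-/

set_option autoImplicit false

open NumberField Pool.Agent.H24.RCN

namespace Pool.Agent.H39.RCN

theorem pf_UNR (h1 : T_UNA) (h2 : T_INT) (_h3 : T_EZ) : T_UNR := by
  intro F L _ _ _ _ _ κ σ z ζ P Pb n b A A' w N hκ hκ2 hz hσ hP hPb hζ hn hbP hint hA hA' hPN hPbN
    hco
  have hinj : Function.Injective (algebraMap F L) := (algebraMap F L).injective
  have hκ0 : κ ≠ 0 := hκ.ne_zero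
  have hκ1 : 1 ≤ κ := Nat.one_le_iff_ne_zero.mpr hκ0
  have hn0 : n ≠ 0 := by omega
  have hζ0 : ζ ≠ 0 := by
    intro h
    rw [h, zero_pow hn0] at hζ
    exact zero_ne_one hζ
  have hζu : IsUnit ζ := by
    refine IsUnit.of_mul_eq_one (ζ ^ (n - 1)) ?_
    rw [← pow_succ', Nat.sub_add_cancel hn]
    exact hζ
  -- the integer `B`
  set BL : L := algebraMap F L (Pb : F) * b with hBL
  set R : 𝓞 F := -(ζ * P * Pb ^ (κ - 1)) with hR
  have hBLpow : BL ^ κ = algebraMap F L (R : F) := by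
    have e1 : (algebraMap F L (Pb : F)) ^ κ
        = (algebraMap F L (Pb : F)) ^ (κ - 1) * algebraMap F L (Pb : F) := by
      rw [← pow_succ, Nat.sub_add_cancel hκ1]
    have e2 : BL ^ κ = (algebraMap F L (Pb : F)) ^ (κ - 1)
        * (b ^ κ * algebraMap F L (Pb : F)) := by
      rw [hBL, mul_pow, e1]; ring
    have e3 : (R : F) = -((ζ : F) * (P : F) * (Pb : F) ^ (κ - 1)) := by
      rw [hR]; push_cast; rfl
    rw [e2, hbP, e3, map_neg, map_mul, map_mul, map_pow]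
    ring
  have hRint : IsIntegral ℤ (algebraMap F L (R : F)) := by
    have : IsIntegral ℤ ((R : 𝓞 F) : F) := R.isIntegral_coe
    exact this.map ((algebraMap F L).toIntAlgHom)
  have hBint : IsIntegral ℤ BL := by
    refine IsIntegral.of_pow (n := κ) (Nat.pos_of_ne_zero hκ0) ?_
    rw [hBLpow]; exact hRint
  obtain ⟨B, hBc⟩ : ∃ B : 𝓞 L, (B : L) = BL := ⟨⟨BL, hBint⟩, rfl⟩
  have hb0 : b ≠ 0 := by
    intro h
    rw [h, zero_pow hκ0, zero_mul] at hbP
    have h3 : algebraMap F L (ζ : F) * algebraMap F L (P : F) = 0 := by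
      have := hbP.symm
      exact neg_eq_zero.mp this
    rcases mul_eq_zero.mp h3 with h4 | h4
    · have : (ζ : F) = 0 := hinj (by rw [h4, map_zero])
      exact hζ0 (by exact_mod_cast this)
    · have : (P : F) = 0 := hinj (by rw [h4, map_zero])
      exact hP (by exact_mod_cast this)
  have hPbL : algebraMap F L (Pb : F) ≠ 0 := by
    intro h
    have : (Pb : F) = 0 := hinj (by rw [h, map_zero])
    exact hPb (by exact_mod_cast this)
  have hBL0 : BL ≠ 0 := mul_ne_zero hPbL hb0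
  have hB0 : B ≠ 0 := by
    intro h
    apply hBL0
    rw [← hBc, h]; rfl
  have hσB : σ (B : L) = algebraMap F L z * B := by
    rw [hBc, hBL, map_mul, AlgEquiv.commutes, hσ]; ring
  have hBpow : B ^ κ = algebraMap (𝓞 F) (𝓞 L) R := by
    apply NumberField.RingOfIntegers.coe_injective
    have e4 : algebraMap (𝓞 L) L (B ^ κ) = (B : L) ^ κ := map_pow (algebraMap (𝓞 L) L) B κ
    rw [e4, hBc, hBLpow]
    rfl
  -- the ideal
  have hspR : Ideal.span {R} = (A * A' ^ (κ - 1)) ^ κ := by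
    have e1 : Ideal.span {R} = Ideal.span {P * Pb ^ (κ - 1)} := by
      apply Ideal.span_singleton_eq_span_singleton.mpr
      obtain ⟨u, hu⟩ := hζu.neg
      refine Associated.symm ⟨u, ?_⟩
      rw [hu, hR]; ring
    rw [e1, ← Ideal.span_singleton_mul_span_singleton, ← Ideal.span_singleton_pow, hA, hA', mul_pow,
      ← pow_mul, ← pow_mul, mul_comm κ (κ - 1)]
  have hspB : Ideal.span {B} = Ideal.map (algebraMap (𝓞 F) (𝓞 L)) (A * A' ^ (κ - 1)) := by
    have e1 : Ideal.span {B} ^ κ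
        = (Ideal.map (algebraMap (𝓞 F) (𝓞 L)) (A * A' ^ (κ - 1))) ^ κ := by
      rw [Ideal.span_singleton_pow, hBpow, ← Ideal.map_pow, ← hspR, Ideal.map_span,
        Set.image_singleton]
    apply le_antisymm
    · rw [← Ideal.dvd_iff_le, ← UniqueFactorizationMonoid.pow_dvd_pow_iff_dvd hκ0, e1]
    · rw [← Ideal.dvd_iff_le, ← UniqueFactorizationMonoid.pow_dvd_pow_iff_dvd hκ0, e1]
  intro Q hQ
  by_cases hκQ : (κ : 𝓞 L) ∈ Q
  swap
  · exact h1 F L κ σ z B _ hκ hz hB0 hσB hspB Q hQ hκQ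
  -- κ ∈ Q
  have hY : IsIntegral ℤ (algebraMap F L Pb * ((b - 1) / (algebraMap F L z - 1))) :=
    h2 F L κ z Pb w b hκ hκ2 hz hint
  obtain ⟨Y, hYc⟩ : ∃ Y : 𝓞 L, (Y : L)
      = algebraMap F L Pb * ((b - 1) / (algebraMap F L z - 1)) := ⟨⟨_, hY⟩, rfl⟩
  refine ⟨Y, B, ?_, ?_⟩
  · have hz1 : algebraMap F L (z : F) - 1 ≠ 0 := by
      intro h
      have h4 : algebraMap F L (z : F) = algebraMap F L 1 := by
        rw [map_one]; exact sub_eq_zero.mp h
      have h5 : (z : F) = 1 := hinj h4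
      have h6 : z = 1 := by exact_mod_cast h5
      exact hz.ne_one hκ.one_lt h6
    rw [hYc, hBc, hBL]
    simp only [map_mul, map_div₀, map_sub, map_one, AlgEquiv.commutes, hσ]
    field_simp
    ring
  · intro hBQ
    have hR1 : algebraMap (𝓞 F) (𝓞 L) R ∈ Q := by
      rw [← hBpow]
      exact Ideal.pow_mem_of_mem Q hBQ κ (Nat.pos_of_ne_zero hκ0)
    have hζL : algebraMap (𝓞 F) (𝓞 L) ζ ∉ Q := by
      intro h
      exact hQ.ne_top (Ideal.eq_top_of_isUnit_mem Q h (hζu.map _))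
    have hNQ : (N : 𝓞 L) ∈ Q := by
      have e2 : algebraMap (𝓞 F) (𝓞 L) R = -(algebraMap (𝓞 F) (𝓞 L) ζ
          * algebraMap (𝓞 F) (𝓞 L) P * algebraMap (𝓞 F) (𝓞 L) Pb ^ (κ - 1)) := by
        rw [hR]; simp only [map_neg, map_mul, map_pow]
      rw [e2] at hR1
      have h4 := (Ideal.neg_mem_iff Q).mp hR1
      have aux : ∀ T : 𝓞 F, T ∣ (N : 𝓞 F) → algebraMap (𝓞 F) (𝓞 L) T ∈ Q → (N : 𝓞 L) ∈ Q := by
        intro T hT hTQ
        obtain ⟨c, hc⟩ := hT
        have e3 : (N : 𝓞 L) = algebraMap (𝓞 F) (𝓞 L) T * algebraMap (𝓞 F) (𝓞 L) c := by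
          rw [← map_mul, ← hc, map_natCast]
        rw [e3]
        exact Ideal.mul_mem_right _ Q hTQ
      rcases hQ.mem_or_mem h4 with h5 | h5
      · rcases hQ.mem_or_mem h5 with h6 | h6
        · exact absurd h6 hζL
        · exact aux P hPN h6
      · exact aux Pb hPbN (hQ.mem_of_pow_mem _ h5)
    -- coprime
    have hcop : IsCoprime (N : ℤ) (κ : ℤ) := Nat.isCoprime_iff_coprime.mpr hco
    obtain ⟨u, v, huv⟩ := hcop
    have h1Q : (1 : 𝓞 L) ∈ Q := by
      have e4 : (1 : 𝓞 L) = (u : 𝓞 L) * (N : 𝓞 L) + (v : 𝓞 L) * (κ : 𝓞 L) := by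
        have := congrArg (fun t : ℤ => (t : 𝓞 L)) huv
        push_cast at this
        exact this.symm
      rw [e4]
      exact Q.add_mem (Ideal.mul_mem_left _ _ hNQ) (Ideal.mul_mem_left _ _ hκQ)
    exact hQ.ne_top ((Ideal.eq_top_iff_one Q).mpr h1Q)

end Pool.Agent.H39.RCN
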