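import Mathlib
import Pool.Agent.H24.RCN.Targets

/-!
# Row SIZ of rct_modules
-/

set_option autoImplicit false

open NumberField Pool.Agent.H24.RCN

namespace Pool.Agent.H39.RCN

theorem normProd {F : Type} [Field F] [NumberField F] (x : 𝓞 F) :
    ((Ideal.absNorm (Ideal.span {x}) : ℕ) : ℝ) = ∏ τ : F →+* ℂ, ‖τ (x : F)‖ := by
  have h1 : (Ideal.absNorm (Ideal.span {x}) : ℕ) = (Algebra.norm ℤ x).natAbs :=
    Ideal.absNorm_span_singleton x
  have h2 : ((Algebra.norm ℤ x : ℤ) : ℚ) = Algebra.norm ℚ (x : F) :=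
    Algebra.coe_norm_int x
  have h3 : algebraMap ℚ ℂ (Algebra.norm ℚ (x : F)) = ∏ τ : F →ₐ[ℚ] ℂ, τ (x : F) :=
    Algebra.norm_eq_prod_embeddings ℚ ℂ (x : F)
  have h4 : ∏ τ : F →ₐ[ℚ] ℂ, ‖τ (x : F)‖ = ∏ τ : F →+* ℂ, ‖τ (x : F)‖ := by
    refine (Fintype.prod_equiv (RingHom.equivRatAlgHom (R := F) (S := ℂ)) _ _ ?_).symm
    intro τ; rfl
  rw [h1, ← h4, ← norm_prod, ← h3, ← h2]
  simp

theorem pf_SIZ : T_SIZ := by
  intro F _ _ Φ P Pb A κ hκ hPb hA hτ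
  have hκ0 : κ ≠ 0 := by omega
  -- absolute values
  have hAabs : ∀ τ : F →+* ℂ, ‖τ (A : F)‖ = ‖τ (Pb : F)‖ := by
    intro τ
    have h1 : ‖τ (A : F)‖ ^ κ = ‖τ (Pb : F)‖ ^ κ := by
      have e1 : ((A ^ κ : 𝓞 F) : F) = ((P * Pb ^ (κ - 1) : 𝓞 F) : F) := by rw [hA]
      push_cast at e1
      have e2 := congrArg (fun t => ‖τ t‖) e1
      simp only [map_pow, map_mul, norm_pow, norm_mul] at e2
      rw [e2, hτ τ, ← pow_succ', Nat.sub_add_cancel hκ]
    exact (pow_left_inj₀ (norm_nonneg _) (norm_nonneg _) hκ0).mp h1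
  -- the extension of `Φ`
  let Ψ : F ≃+* F := IsFractionRing.ringEquivOfRingEquiv (K := F) (L := F) Φ
  have hΨ : ∀ x : 𝓞 F, Ψ (x : F) = ((Φ x : 𝓞 F) : F) := by
    intro x
    exact IsFractionRing.ringEquivOfRingEquiv_algebraMap (K := F) (L := F) Φ x
  have hΨabs : ∀ τ : F →+* ℂ, ‖τ ((Φ A : 𝓞 F) : F)‖ = ‖τ ((Φ Pb : 𝓞 F) : F)‖ := by
    intro τ
    have := hAabs (τ.comp Ψ.toRingHom)
    simp only [RingHom.comp_apply, RingEquiv.toRingHom_eq_coe, RingEquiv.coe_toRingHom] at this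
    rw [← hΨ, ← hΨ]
    exact this
  -- product of the second factor
  have hprod : ∏ τ : F →+* ℂ, ‖τ ((Φ Pb : 𝓞 F) : F)‖ = ∏ τ : F →+* ℂ, ‖τ (Pb : F)‖ := by
    have hbij : Function.Bijective (fun τ : F →+* ℂ => τ.comp Ψ.toRingHom) := by
      constructor
      · intro a b hab
        apply RingHom.ext
        intro x
        have := congrArg (fun f : F →+* ℂ => f (Ψ.symm x)) hab
        simpa using this
      · intro b
        refine ⟨b.comp Ψ.symm.toRingHom, ?_⟩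
        apply RingHom.ext
        intro x
        simp
    refine Fintype.prod_bijective _ hbij _ _ ?_
    intro τ
    rw [← hΨ]
    rfl
  have hreal : ((Ideal.absNorm (Ideal.span {Φ A * Pb - A * Φ Pb}) : ℕ) : ℝ) ≤
      ((2 ^ Module.finrank ℚ F * Ideal.absNorm (Ideal.span {Pb}) ^ 2 : ℕ) : ℝ) := by
    push_cast
    rw [normProd, normProd]
    have hb : ∀ τ : F →+* ℂ, ‖τ ((Φ A * Pb - A * Φ Pb : 𝓞 F) : F)‖
        ≤ 2 * (‖τ (Pb : F)‖ * ‖τ ((Φ Pb : 𝓞 F) : F)‖) := by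
      intro τ
      have e1 : ((Φ A * Pb - A * Φ Pb : 𝓞 F) : F)
          = ((Φ A : 𝓞 F) : F) * (Pb : F) - (A : F) * ((Φ Pb : 𝓞 F) : F) := by push_cast; rfl
      rw [e1, map_sub, map_mul, map_mul]
      refine (norm_sub_le _ _).trans ?_
      rw [norm_mul, norm_mul, hΨabs τ, hAabs τ]
      nlinarith [norm_nonneg (τ (Pb : F)), norm_nonneg (τ ((Φ Pb : 𝓞 F) : F))]
    refine (Finset.prod_le_prod (fun τ _ => norm_nonneg _) (fun τ _ => hb τ)).trans ?_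
    rw [Finset.prod_mul_distrib, Finset.prod_mul_distrib, hprod, Finset.prod_const, Finset.card_univ,
      NumberField.Embeddings.card F ℂ, sq]
  exact_mod_cast hreal

end Pool.Agent.H39.RCN
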